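import Pool.Agent.Q178.Functors.Degree

set_option autoImplicit false

/-!
A finitary skeletal normal functor of degree two which is not open.
-/

universe u

namespace Pool.Agent.Results.MP_92e33a_gt.SkeletalNotOpen

open CategoryTheory Set Topology Q178.Functors

/-- **Skeletal finitary normal functors of finite degree need not be open.** There is a normal
finitary functor of degree two in the category of compact Hausdorff spaces which is skeletal but
neither open nor finitely bicommutative. -/
theorem result : ∃ F : CompHaus.{u} ⥤ CompHaus.{u}, IsNormal F ∧ IsFinitary F ∧ HasDegree F 2 ∧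
    IsSkeletalFunctor F ∧ ¬ IsOpenFunctor F ∧ ¬ IsFinitelyBicommutative F :=
  ⟨Fun, fun_normal, fun_finitary, fun_degree, fun_skeletal, fun_not_open, fun_not_bicommutative⟩

end Pool.Agent.Results.MP_92e33a_gt.SkeletalNotOpen
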